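import Mathlib
import Pool.Agent.helper7.DF.Spec2

/-! Row `df:CNT` (MP_60f069_nt). -/

set_option autoImplicit false

namespace Pool.Agent.DFO

theorem CNT (hCNL : CNL_stmt) (hCNS : CNS_stmt) : CNT_stmt := by
  intro ε hε
  obtain ⟨C₁, h₁⟩ := hCNL ε hε
  obtain ⟨C₂, h₂⟩ := hCNS ε hε
  refine ⟨|C₁| + |C₂|, fun X => ?_⟩
  have hX : (0 : ℝ) ≤ (X : ℝ) ^ (2 / 3 + ε) := Real.rpow_nonneg (Nat.cast_nonneg X) _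
  have a1 := h₁ X
  have a2 := h₂ X
  have hfin : ∀ S : Set (ℕ × ℕ), (∀ z ∈ S, z.2 ≤ z.1 ∧ z.1 ≤ X) → S.Finite := by
    intro S hS
    refine Set.Finite.subset (Finset.finite_toSet (Finset.Iic X ×ˢ Finset.Iic X)) ?_
    intro z hz
    obtain ⟨h, h'⟩ := hS z hz
    simp only [Finset.coe_product, Finset.coe_Iic, Set.mem_prod, Set.mem_Iic]
    exact ⟨h', h.trans h'⟩
  set A : Set (ℕ × ℕ) := {z ∈ Pairs X | Real.log X ^ 3 ≤ (z.2 : ℝ)} with hA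
  set B : Set (ℕ × ℕ) := {z : ℕ × ℕ | 1 ≤ z.2 ∧ z.2 ≤ z.1 ∧ z.1 ≤ X ∧ (z.2 : ℝ) < Real.log X ^ 3 ∧ ∃ a b : ℕ → ℕ, Good z.1 z.2 a b ∧ ∃ j ∈ Finset.Icc 1 z.2, b j = 1} with hB
  have hAf : A.Finite := hfin A (by rintro z ⟨hz, -⟩; exact ⟨hz.2.1, hz.2.2.1⟩)
  have hBf : B.Finite := hfin B (by rintro z hz; exact ⟨hz.2.1, hz.2.2.1⟩)
  have b1 : C₁ * (X : ℝ) ^ (2 / 3 + ε) ≤ |C₁| * (X : ℝ) ^ (2 / 3 + ε) :=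
    mul_le_mul_of_nonneg_right (le_abs_self _) hX
  have b2 : C₂ * (X : ℝ) ^ (2 / 3 + ε) ≤ |C₂| * (X : ℝ) ^ (2 / 3 + ε) :=
    mul_le_mul_of_nonneg_right (le_abs_self _) hX
  have b3 : 0 ≤ |C₂| * (X : ℝ) ^ (2 / 3 + ε) := mul_nonneg (abs_nonneg _) hX
  constructor
  · have hsub : {z : ℕ × ℕ | 1 ≤ z.2 ∧ z.2 ≤ z.1 ∧ z.1 ≤ X ∧ ∃ a b : ℕ → ℕ, Good z.1 z.2 a b ∧ ∃ j ∈ Finset.Icc 1 z.2, b j = 1} ⊆ A ∪ B := by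
      rintro z ⟨h1, h2, h3, a, b, hg, hj⟩
      by_cases hk : Real.log X ^ 3 ≤ (z.2 : ℝ)
      · exact Or.inl ⟨⟨h1, h2, h3, a, b, hg⟩, hk⟩
      · exact Or.inr ⟨h1, h2, h3, not_le.mp hk, a, b, hg, hj⟩
    have hc : ({z : ℕ × ℕ | 1 ≤ z.2 ∧ z.2 ≤ z.1 ∧ z.1 ≤ X ∧ ∃ a b : ℕ → ℕ, Good z.1 z.2 a b ∧ ∃ j ∈ Finset.Icc 1 z.2, b j = 1}).ncard ≤ A.ncard + B.ncard :=
      (Set.ncard_le_ncard hsub (hAf.union hBf)).trans (Set.ncard_union_le A B)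
    have hc' : ((({z : ℕ × ℕ | 1 ≤ z.2 ∧ z.2 ≤ z.1 ∧ z.1 ≤ X ∧ ∃ a b : ℕ → ℕ, Good z.1 z.2 a b ∧ ∃ j ∈ Finset.Icc 1 z.2, b j = 1}).ncard : ℕ) : ℝ) ≤ (A.ncard : ℝ) + (B.ncard : ℝ) := by
      exact_mod_cast hc
    linarith [add_mul (|C₁|) (|C₂|) ((X : ℝ) ^ (2 / 3 + ε))]
  · have hsub : {z : ℕ × ℕ | Real.log X ^ 3 ≤ (z.2 : ℝ) ∧ 1 ≤ z.2 ∧ z.2 ≤ z.1 ∧ z.1 ≤ X ∧ ∃ a b : ℕ → ℕ, Good z.1 z.2 a b} ⊆ A := by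
      rintro z ⟨hk, h1, h2, h3, a, b, hg⟩
      exact ⟨⟨h1, h2, h3, a, b, hg⟩, hk⟩
    have hc : ((({z : ℕ × ℕ | Real.log X ^ 3 ≤ (z.2 : ℝ) ∧ 1 ≤ z.2 ∧ z.2 ≤ z.1 ∧ z.1 ≤ X ∧ ∃ a b : ℕ → ℕ, Good z.1 z.2 a b}).ncard : ℕ) : ℝ) ≤ (A.ncard : ℝ) := by
      exact_mod_cast Set.ncard_le_ncard hsub hAf
    linarith [add_mul (|C₁|) (|C₂|) ((X : ℝ) ^ (2 / 3 + ε))]

end Pool.Agent.DFO
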